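import Pool.Agent.W689.Mk.Cone3

set_option autoImplicit false

open Pool.Agent.W689.Mk

namespace Pool.Agent.Results.MP_df2bd8_gt.CompleteInvariantCone

/-- Suppose the linear holonomy of a closed affine manifold with parallel volume preserves a
nonempty open convex cone `R`. If at one single point `x` of the cover the geodesics with initial
velocities in one translate `p + R` are defined up to time one, then the structure is complete. -/
theorem result (E X Γ : Type) [NormedAddCommGroup E] [NormedSpace ℝ E] [FiniteDimensional ℝ E]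
    [TopologicalSpace X] [T2Space X] [SecondCountableTopology X] [ConnectedSpace X]
    [Group Γ] [MulAction Γ X] (dev : X → E) (hol : Γ →* (E ≃ᵃ[ℝ] E))
    (D : AffData X Γ E dev hol) (R : Set E) (hopen : IsOpen R) (hconv : Convex ℝ R)
    (hcone : ∀ v ∈ R, ∀ t : ℝ, 0 < t → t • v ∈ R) (hne : R.Nonempty)
    (hinv : ∀ γ : Γ, ∀ v ∈ R, (hol γ).linear v ∈ R) (x : X) (p : E)
    (h : ∀ v ∈ R, Geod dev x (p + v)) : IsHomeomorph dev := by
  have hR : OC R := ⟨hopen, hconv, hcone, hne⟩
  have hE : ∀ w ∈ (fun w => w + (-p)) ⁻¹' R, ∃ y, Ex dev x w y := by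
    intro w hw
    have h1 := Geod.ex D.loc (h _ hw)
    have h2 : p + (w + -p) = w := by abel
    rwa [h2] at h1
  have hH : IsOpen ((fun w => w + (-p)) ⁻¹' R) :=
    hopen.preimage (continuous_id.add continuous_const)
  obtain ⟨σ, hσ, hσE⟩ := sec_of_Ex D.loc hH (hconv.translate_preimage_left (-p)) hE
  obtain ⟨r, hr⟩ := hne
  refine cone_complete D hR hinv (x0 := σ (dev x + (p + r))) fun v hv => ⟨_, hσ.Ex ?_ ?_⟩
  · show dev x + (p + r) - dev x + -p ∈ R
    have : dev x + (p + r) - dev x + -p = r := by abel
    rwa [this]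
  · show dev x + (p + r) + v - dev x + -p ∈ R
    have : dev x + (p + r) + v - dev x + -p = r + v := by abel
    rw [this]
    exact hR.add hr hv

end Pool.Agent.Results.MP_df2bd8_gt.CompleteInvariantCone
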