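import Pool.Agent.W689.Mk.Half

set_option autoImplicit false

open Pool.Agent.W689.Mk

namespace Pool.Agent.Results.MP_df2bd8_gt.HalfSpaceOfGeodesics

/-- A closed affine manifold with parallel volume, given by a connected cover `X` with its group
`Γ`, developing map `dev` and holonomy `hol`. If at one single point `x` of the cover the geodesics
with initial velocities in one open affine half-space `a < φ v` are defined up to time one, then the
structure is complete: the developing map is a homeomorphism onto the affine space. -/
theorem result (E X Γ : Type) [NormedAddCommGroup E] [NormedSpace ℝ E] [FiniteDimensional ℝ E]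
    [TopologicalSpace X] [T2Space X] [SecondCountableTopology X] [ConnectedSpace X]
    [Group Γ] [MulAction Γ X] (dev : X → E) (hol : Γ →* (E ≃ᵃ[ℝ] E))
    (D : AffData X Γ E dev hol) (x : X) (φ : E →L[ℝ] ℝ) (hφ : φ ≠ 0) (a : ℝ)
    (h : ∀ v : E, a < φ v → Geod dev x v) :
    IsHomeomorph dev := by
  obtain ⟨y, hy⟩ := Hs.of_half D.loc hφ (a := a) (x := x) fun v hv => Geod.ex D.loc (h v hv)
  exact half_complete D hy

end Pool.Agent.Results.MP_df2bd8_gt.HalfSpaceOfGeodesics
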