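import Pool.Agent.W689.Mk.Star
import Pool.Agent.W689.Mk.Ends

set_option autoImplicit false

open Pool.Agent.W689.Mk

namespace Pool.Agent.Results.MP_df2bd8_gt.OnePointSeesAll

/-- A closed affine manifold with parallel volume, given by a connected cover `X` with its group
`Γ`, developing map `dev` and holonomy `hol`. If one single point `x` of the cover is joined to
every point of the cover by a geodesic, then the structure is complete. -/
theorem result (E X Γ : Type) [NormedAddCommGroup E] [NormedSpace ℝ E] [FiniteDimensional ℝ E]
    [TopologicalSpace X] [T2Space X] [SecondCountableTopology X] [ConnectedSpace X]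
    [Group Γ] [MulAction Γ X] (dev : X → E) (hol : Γ →* (E ≃ᵃ[ℝ] E))
    (D : AffData X Γ E dev hol) (x : X) (h : ∀ y : X, Joined dev x y) :
    IsHomeomorph dev :=
  visible_complete D fun y => (h y).ex D.loc

end Pool.Agent.Results.MP_df2bd8_gt.OnePointSeesAll
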