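import Pool.Agent.W689.Mk.Star

set_option autoImplicit false

open Pool.Agent.W689.Mk

namespace Pool.Agent.Results.MP_df2bd8_gt.StarShapedInvariantSets

/-- The affine holonomy of a closed affine manifold with parallel volume leaves no proper
star-shaped (in particular no proper convex) subset of the affine space invariant. -/
theorem result (E X Γ : Type) [NormedAddCommGroup E] [NormedSpace ℝ E] [FiniteDimensional ℝ E]
    [TopologicalSpace X] [T2Space X] [SecondCountableTopology X] [Nonempty X]
    [Group Γ] [MulAction Γ X] (dev : X → E) (hol : Γ →* (E ≃ᵃ[ℝ] E))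
    (D : AffData X Γ E dev hol) (C : Set E) (p : E) (hp : p ∈ C) (hs : StarConvex ℝ p C)
    (hinv : ∀ γ : Γ, ∀ q ∈ C, hol γ q ∈ C) : C = Set.univ :=
  star_univ D hp hs hinv

end Pool.Agent.Results.MP_df2bd8_gt.StarShapedInvariantSets
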